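import Pool.Agent.W707.HM.Stm

/-! Project HM, part EX: the conjugate function exists. -/

set_option autoImplicit false

namespace Pool.Agent.W978.HM.Ex

open Set Pool.Agent.W707.HM

theorem main : S_EX := by
  intro f hf
  have key : ∀ m : ℝ, ∃ t, SG f t m := by
    intro m
    have hc : ContinuousOn (fun t => m * t - f t) (Icc (-1 : ℝ) 1) :=
      (continuousOn_const.mul continuousOn_id).sub hf
    obtain ⟨t, ht, hmax⟩ := isCompact_Icc.exists_isMaxOn ⟨0, by norm_num, by norm_num⟩ hc
    refine ⟨t, ht, fun u hu => ?_⟩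
    have h := hmax hu
    simp only [Set.mem_ofPred_eq] at h
    linarith
  choose tau htau using key
  exact ⟨fun m => m * tau m - f (tau m), tau, fun m => ⟨htau m, rfl⟩⟩

end Pool.Agent.W978.HM.Ex
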